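import Pool.Agent.Helper29.OT.St

/-!
# Project OT, module GK
-/

set_option autoImplicit false

namespace Pool.Agent.Helper84.OT

open Finset Pool.Agent.Helper14.FEM Pool.Agent.Helper3.EMK Pool.Agent.Helper29.TK
  Pool.Agent.Helper29.OT

theorem hGK : StGK := by
  intro ι _ q x hq hq1 hx k hk
  have hk0 : (0 : ℝ) < k := by exact_mod_cast hk
  set K : ℝ := ((k : ℝ) + 1) / k with hK
  have hK' : K = 1 + 1 / k := by rw [hK]; field_simp
  set I : ℝ → ℝ := fun s => if K ≤ s then 1 else 0 with hI
  set Φ : ℝ := Ex q x (k + 1) (fun s => max (s - K) 0) with hΦ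
  -- lower bound
  have hlow : (∑ i, q i * max (x i - 1 / k) 0) * Pr q x k 1 ≤ Φ := by
    rw [hΦ, Ex_succ, Finset.sum_mul]
    refine Finset.sum_le_sum fun i _ => ?_
    rw [mul_assoc]
    refine mul_le_mul_of_nonneg_left ?_ (hq i)
    unfold Pr
    rw [← Ex_mul]
    refine Ex_mono q x hq hx k _ _ fun s _ => ?_
    show max (x i - 1 / k) 0 * (if (1 : ℝ) ≤ s then (1 : ℝ) else 0) ≤ max (s + x i - K) 0
    split_ifs with h
    · rw [mul_one]
      refine max_le_max ?_ le_rfl
      rw [hK']
      linarith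
    · rw [mul_zero]
      exact le_max_right _ _
  -- the first formula
  have hA : Φ = ((k : ℝ) + 1) * ∑ i, q i * ((x i - 1 / k) * Ex q x k (fun s => I (s + x i))) := by
    have e : (fun s => max (s - K) 0) = fun s => s * I s - K * I s := by
      funext s
      simp only [hI]
      split_ifs with h
      · rw [max_eq_left (by linarith)]; ring
      · rw [max_eq_right (by linarith [not_le.1 h])]; ring
    rw [hΦ, e, Ex_sub, Ex_mom, Ex_mul, Ex_succ, Finset.mul_sum, Finset.mul_sum, Finset.mul_sum,
      ← Finset.sum_sub_distrib]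
    refine Finset.sum_congr rfl fun i _ => ?_
    rw [hK]
    field_simp
  -- the second formula
  have hB : Φ = ∑ i, q i * Ex q x k (fun s => (s - 1) * I (s + x i)) +
      ∑ i, q i * ((x i - 1 / k) * Ex q x k (fun s => I (s + x i))) := by
    rw [hΦ, Ex_succ, ← Finset.sum_add_distrib]
    refine Finset.sum_congr rfl fun i _ => ?_
    rw [← mul_add, ← Ex_mul q x k (x i - 1 / k), ← Ex_add]
    congr 1
    congr 1
    funext s
    simp only [hI]
    split_ifs with h
    · rw [max_eq_left (by linarith), hK']; ring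
    · rw [max_eq_right (by linarith [not_le.1 h])]; ring
  have hC : ∑ i, q i * Ex q x k (fun s => (s - 1) * I (s + x i)) ≤ Gx q x k 1 := by
    have h1 : ∀ i, Ex q x k (fun s => (s - 1) * I (s + x i)) ≤ Gx q x k 1 := by
      intro i
      unfold Gx
      refine Ex_mono q x hq hx k _ _ fun s _ => ?_
      simp only [hI]
      split_ifs with h
      · rw [mul_one]; exact le_max_left _ _
      · rw [mul_zero]; exact le_max_right _ _
    calc ∑ i, q i * Ex q x k (fun s => (s - 1) * I (s + x i))
        ≤ ∑ i, q i * Gx q x k 1 :=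
          Finset.sum_le_sum fun i _ => mul_le_mul_of_nonneg_left (h1 i) (hq i)
      _ = Gx q x k 1 := by rw [← Finset.sum_mul, hq1, one_mul]
  refine hlow.trans ?_
  have h2 : Φ ≤ Gx q x k 1 + Φ / (k + 1) := by
    have h3 : ∑ i, q i * ((x i - 1 / k) * Ex q x k (fun s => I (s + x i))) = Φ / (k + 1) := by
      rw [hA, mul_div_cancel_left₀ _ (by positivity)]
    linarith [hB, hC, h3]
  have h4 : Φ * (k / (k + 1)) ≤ Gx q x k 1 := by
    have : Φ * (k / (k + 1)) = Φ - Φ / (k + 1) := by field_simp; ring
    linarith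
  have h5 : Φ = K * (Φ * (k / (k + 1))) := by
    rw [hK]
    field_simp
  rw [h5]
  exact mul_le_mul_of_nonneg_left h4 (by positivity)

end Pool.Agent.Helper84.OT
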